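import Pool.Agent.L7h70.GF.Main

/-!
# Dense pairs of grammatical families of finite grammar forms

Let `F₁` be the grammar form with the productions `S → ab`, `S → ba`, and `F₂` the form with the
production `S → aa`. The pair `(𝓛(F₁), 𝓛(F₂))` is dense (yes to Q1 of MP_71ec98_lc). More generally we
determine all forms `F` with `𝓛(F) ⊊ 𝓛(F₂)` for which the pair `(𝓛(F), 𝓛(F₂))` is dense: these are
the forms whose language contains a closed walk `a₀a₁, a₁a₂, …, a_{m-1}a₀`.

Proof. In the interval below `𝓛(F₂)` all nonempty words have length two, so every form gives a finite
digraph (the letters with the words as arcs). A finite language belongs to `𝓛(G)` if and only if it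
is mapped into `L(G)` by a map of the letters; for one direction nonterminals of an interpretation
are pairs of a nonterminal and the word which it has to produce. So inclusion of families is
existence of a homomorphism. If `A < B` are digraphs and `A` has a directed cycle, then the disjoint
union of `A` and of the product of `B` with a large shift digraph on long tuples is strictly between
`A` and `B`. If `A` is acyclic and the directed path `P` with `n` arcs has no homomorphism to `A`,
then there is nothing strictly between `A + P × T` and `A + P`, where `T` is the transitive tournament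
with `n` points.
-/

set_option autoImplicit false

namespace Pool.Agent.Results.MP_71ec98_lc.DensePairs

open Pool.Agent.Helper230.EForms Pool.Agent.L7h70.GF

/-- The finite forms `F₁` (productions `S → ab`, `S → ba`) and `F₂` (production `S → aa`) give a
dense pair of grammatical families, and for all grammar forms `F` with `𝓛(F) ⊊ 𝓛(F₂)` the pair
`(𝓛(F), 𝓛(F₂))` is dense if and only if for some `m > 0` and letters `a₀, …, a_m = a₀` all the words
`a_i a_{i+1}` belong to the language of `F`. -/
theorem result :
    (IsCF F1 ∧ (cfLanguage F1).Finite ∧ IsCF F2 ∧ (cfLanguage F2).Finite ∧ DensePair F1 F2) ∧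
    ∀ F : Gram, IsCF F → FamLT (sFamily F) (sFamily F2) → (DensePair F F2 ↔ HasCycle F) := by
  refine ⟨⟨F1_cf, ?_, F2_cf, ?_, dense_of_cycle F1_cf F1_lt F1_cycle⟩, fun F hF hlt =>
    ⟨cycle_of_dense hF, dense_of_cycle hF hlt⟩⟩
  · rw [F1_lang]
    exact Set.toFinite _
  · rw [F2_lang]
    exact Set.toFinite _

end Pool.Agent.Results.MP_71ec98_lc.DensePairs
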